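import Pool.Agent.W108.EG.Tree2

/-!
# Project EG: `S_TREE` and `S_PTS`
-/

set_option autoImplicit false

namespace Pool.Agent.W108.EG

open Finset Filter
open Pool.Agent.W78.GA
open Pool.Agent.W78.EC (Tr pts rs)
open Pool.Agent.W78.EG

variable {t c : ℤ}

lemma rs_cast {p : ℕ} (hp : 1 ≤ p) (x : ℤ) : ((rs p x : ℕ) : ℤ) = x % p := by
  unfold rs
  exact Int.toNat_of_nonneg (Int.emod_nonneg _ (by omega))

lemma rs_comb {p : ℕ} (hp : 1 ≤ p) (m n x y : ℤ) :
    rs p (m * x + n * y) = rs p (m * (rs p x : ℕ) + n * (rs p y : ℕ)) := by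
  have h : (m * x + n * y) % (p : ℤ) = (m * (rs p x : ℕ) + n * (rs p y : ℕ)) % (p : ℤ) := by
    rw [rs_cast hp, rs_cast hp]
    apply Int.ModEq.add
    · exact Int.ModEq.mul_left m (Int.mod_modEq x p).symm
    · exact Int.ModEq.mul_left n (Int.mod_modEq y p).symm
  show ((m * x + n * y) % (p : ℤ)).toNat = ((m * (rs p x : ℕ) + n * (rs p y : ℕ)) % (p : ℤ)).toNat
  rw [h]

/-- residues of the leaf edges -/
def Psi {A : Type} (T : Tr A) (j p : ℕ) (r : ℕ × ℕ × ℕ × ℕ) : ℕ × ℕ × ℕ × ℕ :=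
  let q := ((co T (1, 0) (0, 1))[j]?).getD ((0, 0), (0, 0))
  (rs p (q.1.1 * r.1 + q.1.2 * r.2.2.1), rs p (q.1.1 * r.2.1 + q.1.2 * r.2.2.2),
    rs p (q.2.1 * r.1 + q.2.2 * r.2.2.1), rs p (q.2.1 * r.2.1 + q.2.2 * r.2.2.2))

lemma Psi_spec {A : Type} (T : Tr A) (e g : Qd t c × Qd t c) (j p : ℕ) (hp : 1 ≤ p)
    (h : (lv T e.1 e.2)[j]? = some g) : res p g = Psi T j p (res p e) := by
  rw [lv_co', List.getElem?_map, Option.map_eq_some_iff] at h
  obtain ⟨q, hq, hf⟩ := h
  unfold Psi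
  rw [hq, Option.getD_some, ← hf]
  unfold res
  simp only [evx_re, evx_im]
  rw [rs_comb hp (q.1.1 : ℤ) q.1.2 e.1.re e.2.re, rs_comb hp (q.1.1 : ℤ) q.1.2 e.1.im e.2.im,
    rs_comb hp (q.2.1 : ℤ) q.2.2 e.1.re e.2.re, rs_comb hp (q.2.1 : ℤ) q.2.2 e.1.im e.2.im]

theorem tree' (hD : t ^ 2 < 4 * c) {f : ℕ} (hf : 4 * c = t ^ 2 + f) (hf3 : 3 ≤ f) :
    S_TREE t c f := by
  intro A
  refine ⟨?_, ?_, ?_, ?_⟩
  · intro lab Y Y' e hY hYY he
    obtain ⟨a, b⟩ := e
    obtain ⟨hV, ha, hb, -⟩ := V_of_edge hD hf hf3 hY he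
    exact ⟨lv_nodup _ _ _ hV.1, leaves_edge hD lab Y' a b hV (ha.trans hYY) (hb.trans hYY),
      (lv_length _ _ _).symm⟩
  · intro lab Y Y' hY hYY g hg
    obtain ⟨u, v⟩ := g
    obtain ⟨hV, hc, hd, hs⟩ := V_of_edge hD hf hf3 (hY.trans hYY) hg
    obtain ⟨e, he, hsub⟩ := descent hD hf hf3 lab Y Y' hY (nm u + nm v) u v le_rfl hV
      (by linarith) hc hd
    have hmem : (u, v) ∈ lv (TT lab Y' e) e.1 e.2 := by
      apply hsub
      rw [TT_leaf lab Y' u v hs]
      exact List.mem_singleton_self _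
    refine ⟨e, ⟨he, hmem⟩, ?_⟩
    rintro e' ⟨he', hmem'⟩
    obtain ⟨a, b⟩ := e
    obtain ⟨a', b'⟩ := e'
    have hVe := (V_of_edge hD hf hf3 hY he).1
    have hVe' := (V_of_edge hD hf hf3 hY he').1
    obtain ⟨k0, k1, k2, k3, k4⟩ := lv_cone _ a b hVe.1 _ hmem
    obtain ⟨-, l1, l2, l3, l4⟩ := lv_cone _ a' b' hVe'.1 _ hmem'
    simp only at k0 k1 k2 k3 k4 l1 l2 l3 l4
    -- the vector `u + v` is interior to both cones
    have inner : ∀ {a b : Qd t c}, dt a b = 1 → 0 ≤ dt a u → 0 ≤ dt u b → 0 ≤ dt a v →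
        0 ≤ dt v b → 0 < dt a (u + v) ∧ 0 < dt (u + v) b := by
      intro a b h0 h1 h2 h3 h4
      have e1 : dt a (u + v) = dt a u + dt a v := by
        rw [dtZ, dtZ, dtZ, re_add', im_add']; ring
      have e2 : dt (u + v) b = dt u b + dt v b := by
        rw [dtZ, dtZ, dtZ, re_add', im_add']; ring
      have e3 : dt u b * dt a v - dt a u * dt v b = 1 := by
        rw [dtZ] at h0 k0
        rw [dtZ, dtZ, dtZ, dtZ]
        linear_combination (u.re * v.im - u.im * v.re) * h0 + k0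
      rw [e1, e2]
      constructor
      · by_contra hc
        push Not at hc
        have : dt a v = 0 := by linarith
        rw [this] at e3
        nlinarith
      · by_contra hc
        push Not at hc
        have : dt u b = 0 := by linarith
        rw [this] at e3
        nlinarith
    obtain ⟨m1, m2⟩ := inner hVe.1 k1 k2 k3 k4
    obtain ⟨m3, m4⟩ := inner hVe'.1 l1 l2 l3 l4
    exact uniq hD hf hf3 hY he' he (u + v) m3 m4 m1 m2
  · refine ⟨graft, ?_⟩
    intro lab Y Y' X e hY _ hX he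
    obtain ⟨a, b⟩ := e
    exact TT_graft hD lab Y' X hX a b (V_of_edge hD hf hf3 hY he).1
  · exact ⟨Psi, fun T e g j p hp h => Psi_spec T e g j p hp h⟩

/-! ### The points of the tree -/

lemma mem_cone (hD : t ^ 2 < 4 * c) {X : ℝ} {a b z : Qd t c} : z ∈ cone X a b ↔
    (prim z ∧ (nm z : ℝ) ≤ X) ∧ 0 < dt a z ∧ 0 < dt z b := by
  unfold cone
  rw [mem_filter, mem_pball hD]

lemma cone_leaf (hD : t ^ 2 < 4 * c) {X : ℝ} {a b : Qd t c} (h : V a b)
    (hX : X < (nm (a + b) : ℝ)) : cone X a b = ∅ := by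
  rw [Finset.eq_empty_iff_forall_notMem]
  intro z hz
  rw [mem_cone hD] at hz
  obtain ⟨⟨-, h1⟩, h2, h3⟩ := hz
  have hd := h.1
  rw [dtZ] at hd
  have := h.comb hD (dt z b) (dt a z) h3 h2 z (by rw [dtZ, dtZ]; linear_combination (-z.re) * hd)
    (by rw [dtZ, dtZ]; linear_combination (-z.im) * hd)
  have : (nm (a + b) : ℝ) ≤ nm z := by exact_mod_cast this
  linarith

lemma cone_node (hD : t ^ 2 < 4 * c) {X : ℝ} {a b : Qd t c} (h : V a b)
    (hX : (nm (a + b) : ℝ) ≤ X) (F' : Qd t c → ℝ) :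
    ∑ z ∈ cone X a b, F' z = ∑ z ∈ cone X a (a + b), F' z +
      (F' (a + b) + ∑ z ∈ cone X (a + b) b, F' z) := by
  classical
  have hd := h.1
  have hd' := hd
  rw [dtZ] at hd
  have a1 : ∀ z, dt z (a + b) = dt z b - dt a z := by
    intro z
    rw [dtZ, dtZ, dtZ, re_add', im_add']; ring
  have a2 : ∀ z, dt (a + b) z = dt a z - dt z b := by
    intro z
    rw [dtZ, dtZ, dtZ, re_add', im_add']; ring
  have n1 : a + b ∉ cone X (a + b) b := by
    rw [mem_cone hD]
    rintro ⟨-, h1, -⟩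
    rw [dtZ] at h1
    linarith
  have n2 : Disjoint (cone X a (a + b)) (insert (a + b) (cone X (a + b) b)) := by
    rw [Finset.disjoint_left]
    intro z hz hz'
    rw [mem_cone hD, a1] at hz
    rw [mem_insert, mem_cone hD, a2] at hz'
    rcases hz' with rfl | hz'
    · have := hz.2.2
      rw [← a1, dtZ] at this
      linarith
    · linarith [hz.2.2, hz'.2.1]
  rw [← Finset.sum_insert n1, ← Finset.sum_union n2]
  congr 1
  ext z
  rw [mem_union, mem_insert, mem_cone hD, mem_cone hD, mem_cone hD, a1, a2]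
  constructor
  · rintro ⟨⟨h1, h2⟩, h3, h4⟩
    rcases lt_trichotomy (dt a z) (dt z b) with h5 | h5 | h5
    · left
      exact ⟨⟨h1, h2⟩, h3, by linarith⟩
    · right; left
      have e1 : z.re = dt z b * (a + b).re := by
        rw [dtZ, dtZ] at h5
        rw [dtZ, re_add']
        linear_combination (-z.re) * hd + b.re * h5
      have e2 : z.im = dt z b * (a + b).im := by
        rw [dtZ, dtZ] at h5
        rw [dtZ, im_add']
        linear_combination (-z.im) * hd + b.im * h5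
      have h6 : IsCoprime z.re z.im := Int.isCoprime_iff_gcd_eq_one.2 h1
      have h7 : IsUnit (dt z b) := by
        apply h6.isUnit_of_dvd'
        · exact ⟨_, e1⟩
        · exact ⟨_, e2⟩
      have h8 : dt z b = 1 := by
        rcases Int.isUnit_iff.1 h7 with h8 | h8
        · exact h8
        · omega
      rw [h8, one_mul] at e1 e2
      exact QuadraticAlgebra.ext e1 e2
    · right; right
      exact ⟨⟨h1, h2⟩, by linarith, h4⟩
  · rintro (⟨⟨h1, h2⟩, h3, h4⟩ | rfl | ⟨⟨h1, h2⟩, h3, h4⟩)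
    · exact ⟨⟨h1, h2⟩, h3, by linarith⟩
    · have h5 := (h.left hD).1
      have h6 := (h.right hD).1
      exact ⟨⟨(prim_of_dt h5).2, hX⟩, by rw [h5]; norm_num, by rw [h6]; norm_num⟩
    · exact ⟨⟨h1, h2⟩, by linarith, h4⟩

theorem ptsT' (hD : t ^ 2 < 4 * c) {f : ℕ} (hf : 4 * c = t ^ 2 + f) (hf3 : 3 ≤ f) :
    S_PTS t c f := by
  intro A lab Y X e F F' hY _ he HF
  have key : ∀ a b, V a b → ∀ x y : ℕ × ℕ, a = evx e x → b = evx e y →
      ((pts (TT lab X (a, b)) x y).map (fun q => F q.1 q.2)).sum = ∑ z ∈ cone X a b, F' z := by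
    refine ind hD X (fun a b h h1 x y hx hy => ?_) fun a b h h1 ih1 ih2 x y hx hy => ?_
    · rw [TT_leaf lab X a b h1, cone_leaf hD h h1]
      rfl
    · have hxy : a + b = evx e (x + y) := by rw [evx_add, hx, hy]
      rw [TT_node hD lab X a b h h1, cone_node hD h h1,
        show pts (Tr.node (lab (a + b)) (TT lab X (a, a + b)) (TT lab X (a + b, b))) x y =
          pts (TT lab X (a, a + b)) x (x + y) ++ ((x + y, lab (a + b)) ::
            pts (TT lab X (a + b, b)) (x + y) y) from rfl,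
        List.map_append, List.sum_append, List.map_cons, List.sum_cons,
        ih1 x (x + y) hx hxy, ih2 (x + y) y hxy hy]
      congr 2
      have := HF (x + y)
      show F (x + y) (lab (a + b)) = F' (a + b)
      rw [hxy]
      exact this.symm
  exact key e.1 e.2 (V_of_edge hD hf hf3 hY (a := e.1) (b := e.2) he).1 (1, 0) (0, 1)
    (evx_one e).symm (evx_two e).symm

lemma hD_of {f : ℕ} {χ : DirichletCharacter ℂ f} (hF : Fd t c f χ) : t ^ 2 < 4 * c := by
  have h1 := hF.disc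
  have h2 : (3 : ℤ) ≤ f := by exact_mod_cast hF.three
  linarith

theorem tree {f : ℕ} {χ : DirichletCharacter ℂ f} (hF : Fd t c f χ) : S_TREE t c f :=
  tree' (hD_of hF) hF.disc hF.three

theorem ptsT {f : ℕ} {χ : DirichletCharacter ℂ f} (hF : Fd t c f χ) : S_PTS t c f :=
  ptsT' (hD_of hF) hF.disc hF.three

end Pool.Agent.W108.EG
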