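import Pool.Agent.W78.EG.Defs

/-!
# Project EG: structure of the Farey trees, basic facts
-/

set_option autoImplicit false

namespace Pool.Agent.W108.EG

open Finset Filter
open Pool.Agent.W78.GA
open Pool.Agent.W78.EC (Tr pts rs)
open Pool.Agent.W78.EG

variable {t c : ℤ}

lemma dtZ (a b : Qd t c) : dt a b = a.re * b.im - a.im * b.re := rfl

lemma re_add' (a b : Qd t c) : (a + b).re = a.re + b.re := rfl

lemma im_add' (a b : Qd t c) : (a + b).im = a.im + b.im := rfl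

lemma ppZ (a b : Qd t c) : pp a b = 2 * (a.re * b.re) + t * (a.im * b.re + a.re * b.im) +
    2 * (c * (a.im * b.im)) := by
  unfold pp ip dt
  ring

/-- linear combinations with natural coefficients -/
def evx (e : Qd t c × Qd t c) (x : ℕ × ℕ) : Qd t c := (x.1 : Qd t c) * e.1 + (x.2 : Qd t c) * e.2

lemma evx_re (e : Qd t c × Qd t c) (x : ℕ × ℕ) :
    (evx e x).re = x.1 * e.1.re + x.2 * e.2.re := by
  unfold evx
  rw [re_add', QuadraticAlgebra.re_mul, QuadraticAlgebra.re_mul, QuadraticAlgebra.re_natCast,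
    QuadraticAlgebra.im_natCast, QuadraticAlgebra.re_natCast, QuadraticAlgebra.im_natCast]
  ring

lemma evx_im (e : Qd t c × Qd t c) (x : ℕ × ℕ) :
    (evx e x).im = x.1 * e.1.im + x.2 * e.2.im := by
  unfold evx
  rw [im_add', QuadraticAlgebra.im_mul, QuadraticAlgebra.im_mul, QuadraticAlgebra.re_natCast,
    QuadraticAlgebra.im_natCast, QuadraticAlgebra.re_natCast, QuadraticAlgebra.im_natCast]
  ring

lemma evx_add (e : Qd t c × Qd t c) (x y : ℕ × ℕ) : evx e (x + y) = evx e x + evx e y := by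
  apply QuadraticAlgebra.ext
  · rw [re_add', evx_re, evx_re, evx_re, Prod.fst_add, Prod.snd_add]
    push_cast
    ring
  · rw [im_add', evx_im, evx_im, evx_im, Prod.fst_add, Prod.snd_add]
    push_cast
    ring

lemma evx_one (e : Qd t c × Qd t c) : evx e (1, 0) = e.1 := by
  apply QuadraticAlgebra.ext
  · rw [evx_re]; simp
  · rw [evx_im]; simp

lemma evx_two (e : Qd t c × Qd t c) : evx e (0, 1) = e.2 := by
  apply QuadraticAlgebra.ext
  · rw [evx_re]; simp
  · rw [evx_im]; simp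

/-- admissible pairs -/
def V (a b : Qd t c) : Prop := dt a b = 1 ∧ 0 ≤ pp a b

lemma nm_add' (hD : t ^ 2 < 4 * c) (a b : Qd t c) :
    (nm (a + b) : ℤ) = nm a + nm b + pp a b := by
  rw [nm_cast hD, nm_cast hD, nm_cast hD, ppZ, re_add', im_add']
  ring

lemma ppdt (hD : t ^ 2 < 4 * c) (a b : Qd t c) :
    pp a b ^ 2 + (4 * c - t ^ 2) * dt a b ^ 2 = 4 * (nm a * nm b) := by
  rw [nm_cast hD, nm_cast hD, ppZ, dtZ]
  ring

lemma dt_left (a b : Qd t c) : dt a (a + b) = dt a b := by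
  rw [dtZ, dtZ, re_add', im_add']
  ring

lemma dt_right (a b : Qd t c) : dt (a + b) b = dt a b := by
  rw [dtZ, dtZ, re_add', im_add']
  ring

lemma pp_left (hD : t ^ 2 < 4 * c) (a b : Qd t c) : pp a (a + b) = pp a b + 2 * nm a := by
  rw [nm_cast hD, ppZ, ppZ, re_add', im_add']
  ring

lemma pp_right (hD : t ^ 2 < 4 * c) (a b : Qd t c) : pp (a + b) b = pp a b + 2 * nm b := by
  rw [nm_cast hD, ppZ, ppZ, re_add', im_add']
  ring

lemma V.left (hD : t ^ 2 < 4 * c) {a b : Qd t c} (h : V a b) : V a (a + b) := by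
  have h2 : (0 : ℤ) ≤ nm a := Int.natCast_nonneg _
  refine ⟨by rw [dt_left]; exact h.1, ?_⟩
  rw [pp_left hD]
  linarith [h.2]

lemma V.right (hD : t ^ 2 < 4 * c) {a b : Qd t c} (h : V a b) : V (a + b) b := by
  have h2 : (0 : ℤ) ≤ nm b := Int.natCast_nonneg _
  refine ⟨by rw [dt_right]; exact h.1, ?_⟩
  rw [pp_right hD]
  linarith [h.2]

lemma pos_of_dt (hD : t ^ 2 < 4 * c) {a b : Qd t c} (h : dt a b = 1) : 1 ≤ nm a ∧ 1 ≤ nm b := by
  constructor
  · rw [one_le_nm hD]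
    rintro rfl
    rw [dtZ] at h
    simp at h
  · rw [one_le_nm hD]
    rintro rfl
    rw [dtZ] at h
    simp at h

lemma prim_of_dt {a b : Qd t c} (h : dt a b = 1) : prim a ∧ prim b := by
  rw [dtZ] at h
  constructor
  · unfold prim
    have : IsCoprime a.re a.im := ⟨b.im, -b.re, by linarith⟩
    exact Int.isCoprime_iff_gcd_eq_one.1 this
  · unfold prim
    have : IsCoprime b.re b.im := ⟨-a.im, a.re, by linarith⟩
    exact Int.isCoprime_iff_gcd_eq_one.1 this

lemma V.add_le (hD : t ^ 2 < 4 * c) {a b : Qd t c} (h : V a b) : nm a + nm b ≤ nm (a + b) := by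
  have h1 := nm_add' hD a b
  have h2 := h.2
  have : ((nm a + nm b : ℕ) : ℤ) ≤ nm (a + b) := by
    push_cast
    linarith
  exact_mod_cast this

/-- the norm of the positive combinations -/
lemma V.comb (hD : t ^ 2 < 4 * c) {a b : Qd t c} (h : V a b) (σ τ : ℤ) (hs : 0 < σ) (ht : 0 < τ)
    (z : Qd t c) (hr : z.re = σ * a.re + τ * b.re) (hi : z.im = σ * a.im + τ * b.im) :
    nm (a + b) ≤ nm z := by
  have h1 := nm_add' hD a b
  have h2 : (nm z : ℤ) = σ ^ 2 * nm a + τ ^ 2 * nm b + (σ * τ) * pp a b := by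
    rw [nm_cast hD, nm_cast hD, nm_cast hD, ppZ, hr, hi]
    ring
  have h3 := h.2
  have h4 : (0 : ℤ) ≤ nm a := Int.natCast_nonneg _
  have h5 : (0 : ℤ) ≤ nm b := Int.natCast_nonneg _
  have h6 : 1 ≤ σ ^ 2 := by nlinarith
  have h7 : 1 ≤ τ ^ 2 := by nlinarith
  have h8 : 1 ≤ σ * τ := by nlinarith
  have : (nm (a + b) : ℤ) ≤ nm z := by
    rw [h1, h2]
    nlinarith [mul_nonneg (by linarith : 0 ≤ σ ^ 2 - 1) h4,
      mul_nonneg (by linarith : 0 ≤ τ ^ 2 - 1) h5, mul_nonneg (by linarith : 0 ≤ σ * τ - 1) h3]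
  exact_mod_cast this

/-- arithmetic for `V_of_edge` -/
lemma arith1 {x y p d : ℤ} (hx : 1 ≤ x) (hxy : x ≤ y) (hd : 3 ≤ d) (he : p ^ 2 + d = 4 * (x * y))
    (hp : p < 0) (h1 : 0 < x + p) (h2 : d < x + y + p) : False := by
  have h3 : p ^ 2 < x ^ 2 := by nlinarith
  have h4 : 4 * (x * x) ≤ 4 * (x * y) := by nlinarith
  have h5 : 3 * x ^ 2 < d := by nlinarith
  have h6 : x + y ≤ x * y + 1 := by nlinarith
  nlinarith

/-- edges have nonnegative scalar product -/
lemma V_of_edge (hD : t ^ 2 < 4 * c) {f : ℕ} (hf : 4 * c = t ^ 2 + f) (hf3 : 3 ≤ f) {Y : ℝ}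
    (hY : (f : ℝ) ≤ Y) {a b : Qd t c} (h : (a, b) ∈ edge t c Y) :
    V a b ∧ (nm a : ℝ) ≤ Y ∧ (nm b : ℝ) ≤ Y ∧ Y < (nm (a + b) : ℝ) := by
  unfold edge at h
  rw [mem_filter, mem_product, mem_pball hD, mem_pball hD] at h
  obtain ⟨⟨⟨h1, h2⟩, ⟨h3, h4⟩⟩, h5, h6⟩ := h
  simp only at h1 h2 h3 h4 h5 h6
  refine ⟨⟨h5, ?_⟩, h2, h4, h6⟩
  by_contra hcon
  push Not at hcon
  obtain ⟨p1, p2⟩ := pos_of_dt hD h5
  have p1' : (1 : ℤ) ≤ nm a := by exact_mod_cast p1
  have p2' : (1 : ℤ) ≤ nm b := by exact_mod_cast p2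
  have e1 := nm_add' hD a b
  have e2 := ppdt hD a b
  rw [h5] at e2
  have e3 : pp a b ^ 2 + (f : ℤ) = 4 * (nm a * nm b) := by
    rw [← e2]
    linarith
  have hf3' : (3 : ℤ) ≤ f := by exact_mod_cast hf3
  have g1 : nm b < nm (a + b) := by
    have : (nm b : ℝ) < nm (a + b) := h4.trans_lt h6
    exact_mod_cast this
  have g2 : nm a < nm (a + b) := by
    have : (nm a : ℝ) < nm (a + b) := h2.trans_lt h6
    exact_mod_cast this
  have g3 : f < nm (a + b) := by
    have : (f : ℝ) < nm (a + b) := hY.trans_lt h6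
    exact_mod_cast this
  have g1' : (nm b : ℤ) < nm (a + b) := by exact_mod_cast g1
  have g2' : (nm a : ℤ) < nm (a + b) := by exact_mod_cast g2
  have g3' : (f : ℤ) < nm (a + b) := by exact_mod_cast g3
  rw [e1] at g1' g2' g3'
  rcases le_total (nm a) (nm b) with hab | hab
  · have hab' : (nm a : ℤ) ≤ nm b := by exact_mod_cast hab
    exact arith1 p1' hab' hf3' e3 hcon (by linarith) g3'
  · have hab' : (nm b : ℤ) ≤ nm a := by exact_mod_cast hab
    exact arith1 p2' hab' hf3' (by rw [e3]; ring) hcon (by linarith) (by linarith)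

lemma edge_of_V (hD : t ^ 2 < 4 * c) {Y : ℝ} {a b : Qd t c} (h : V a b) (h1 : (nm a : ℝ) ≤ Y)
    (h2 : (nm b : ℝ) ≤ Y) (h3 : Y < (nm (a + b) : ℝ)) : (a, b) ∈ edge t c Y := by
  unfold edge
  rw [mem_filter, mem_product, mem_pball hD, mem_pball hD]
  have := prim_of_dt h.1
  exact ⟨⟨⟨this.1, h1⟩, ⟨this.2, h2⟩⟩, h.1, h3⟩

/-- induction over the subdivision -/
theorem ind (hD : t ^ 2 < 4 * c) (X : ℝ) {P : Qd t c → Qd t c → Prop}
    (hl : ∀ a b, V a b → X < (nm (a + b) : ℝ) → P a b)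
    (hn : ∀ a b, V a b → (nm (a + b) : ℝ) ≤ X → P a (a + b) → P (a + b) b → P a b) :
    ∀ a b, V a b → P a b := by
  have key : ∀ n : ℕ, ∀ a b, V a b → ⌊X⌋₊ < n + (nm a + nm b) → P a b := by
    intro n
    induction n with
    | zero =>
      intro a b h h1
      refine hl a b h ?_
      have h2 := h.add_le hD
      have h3 : X < (nm (a + b) : ℝ) := by
        rw [← Nat.floor_lt' (by have := (pos_of_dt hD h.1).1; omega)]
        omega
      exact h3
    | succ n ih =>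
      intro a b h h1
      rcases le_or_gt (nm (a + b) : ℝ) X with h2 | h2
      · have h3 := h.add_le hD
        obtain ⟨p1, p2⟩ := pos_of_dt hD h.1
        refine hn a b h h2 (ih _ _ (h.left hD) (by omega)) (ih _ _ (h.right hD) (by omega))
      · exact hl a b h h2
  intro a b h
  exact key (⌊X⌋₊ + 1) a b h (by omega)

section tree

variable {A : Type}

lemma tr_stable (hD : t ^ 2 < 4 * c) (lab : Qd t c → A) (X : ℝ) : ∀ (n m : ℕ) (a b : Qd t c),
    V a b → ⌊X⌋₊ < n + (nm a + nm b) → ⌊X⌋₊ < m + (nm a + nm b) →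
    tr lab X n a b = tr lab X m a b := by
  have hz : ∀ (a b : Qd t c), V a b → ⌊X⌋₊ < nm a + nm b → ¬ (nm (a + b) : ℝ) ≤ X := by
    intro a b h h1
    have h2 := h.add_le hD
    rw [not_le, ← Nat.floor_lt' (by have := (pos_of_dt hD h.1).1; omega)]
    omega
  intro n
  induction n with
  | zero =>
    intro m a b h h1 h2
    have h3 := hz a b h (by omega)
    cases m with
    | zero => rfl
    | succ m =>
      show Tr.leaf = _
      unfold tr
      rw [if_neg h3]
  | succ n ih =>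
    intro m a b h h1 h2
    cases m with
    | zero =>
      have h3 := hz a b h (by omega)
      show _ = Tr.leaf
      unfold tr
      rw [if_neg h3]
    | succ m =>
      unfold tr
      split_ifs with h3
      · have h4 := h.add_le hD
        obtain ⟨p1, p2⟩ := pos_of_dt hD h.1
        rw [ih m a (a + b) (h.left hD) (by omega) (by omega),
          ih m (a + b) b (h.right hD) (by omega) (by omega)]
      · rfl

lemma TT_node (hD : t ^ 2 < 4 * c) (lab : Qd t c → A) (X : ℝ) (a b : Qd t c) (h : V a b)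
    (h1 : (nm (a + b) : ℝ) ≤ X) :
    TT lab X (a, b) = .node (lab (a + b)) (TT lab X (a, a + b)) (TT lab X (a + b, b)) := by
  obtain ⟨p1, p2⟩ := pos_of_dt hD h.1
  have h4 := h.add_le hD
  have e : TT lab X (a, b) = tr lab X (⌊X⌋₊ + 1) a b := rfl
  rw [e]
  have e2 : tr lab X (⌊X⌋₊ + 1) a b = if (nm (a + b) : ℝ) ≤ X then
      .node (lab (a + b)) (tr lab X ⌊X⌋₊ a (a + b)) (tr lab X ⌊X⌋₊ (a + b) b) else .leaf := rfl
  rw [e2, if_pos h1]
  congr 1
  · exact tr_stable hD lab X _ _ _ _ (h.left hD) (by omega) (by omega)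
  · exact tr_stable hD lab X _ _ _ _ (h.right hD) (by omega) (by omega)

lemma TT_leaf (lab : Qd t c → A) (X : ℝ) (a b : Qd t c) (h1 : X < (nm (a + b) : ℝ)) :
    TT lab X (a, b) = .leaf := by
  have e2 : TT lab X (a, b) = if (nm (a + b) : ℝ) ≤ X then
      .node (lab (a + b)) (tr lab X ⌊X⌋₊ a (a + b)) (tr lab X ⌊X⌋₊ (a + b) b) else .leaf := rfl
  rw [e2, if_neg (not_le.2 h1)]

end tree

end Pool.Agent.W108.EG
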